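import Mathlib

/-!
# Blocks and hubs of a finite ordered set

We cut a finite ordered set into blocks numbered by `b : P → ℕ` such that antichains live in two
consecutive blocks, and we choose a hub `v i` in every block such that consecutive hubs are
incomparable (unless the ordered set splits as an ordinal sum there).
-/

namespace Pool.Agent.H59.Fib

open Finset

variable {P : Type*} [PartialOrder P] [Fintype P]

open Classical in
/-- The elements which are not above all elements of `F`. -/
noncomputable def reach (F : Finset P) : Finset P :=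
  univ.filter (fun y => ∃ x ∈ F, ¬ x < y)

open Classical in
/-- The next set of the filtration. -/
noncomputable def next (F : Finset P) : Finset P :=
  if reach F = F then
    (if h : ∃ m : P, m ∉ F ∧ ∀ y, y ∉ F → ¬ y < m then insert h.choose F else F)
  else reach F

/-- The filtration. -/
noncomputable def Fil : ℕ → Finset P
  | 0 => ∅
  | (i + 1) => next (Fil i)

theorem mem_reach {F : Finset P} {y : P} : y ∈ reach F ↔ ∃ x ∈ F, ¬ x < y := by
  simp [reach]

theorem subset_reach (F : Finset P) : F ⊆ reach F := by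
  intro x hx
  rw [mem_reach]
  exact ⟨x, hx, lt_irrefl x⟩

theorem reach_subset_next (F : Finset P) : reach F ⊆ next F := by
  classical
  unfold next
  split_ifs with h1 h2
  · rw [h1]; exact subset_insert _ _
  · rw [h1]
  · exact subset_rfl

theorem next_of_ne {F : Finset P} (h : reach F ≠ F) : next F = reach F := by
  unfold next; rw [if_neg h]

theorem exists_min_compl {F : Finset P} (hF : F ≠ univ) :
    ∃ m : P, m ∉ F ∧ ∀ y, y ∉ F → ¬ y < m := by
  classical
  have h1 : (Fᶜ).Nonempty := by
    rw [nonempty_iff_ne_empty]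
    intro h
    exact hF (compl_eq_empty_iff F |>.1 h)
  obtain ⟨m, hm⟩ := (Fᶜ).exists_minimal h1
  refine ⟨m, by simpa using hm.1, fun y hy hlt => ?_⟩
  have := hm.2 (show y ∈ Fᶜ by simpa using hy) hlt.le
  exact absurd hlt (not_lt_of_ge this)

theorem next_of_eq {F : Finset P} (h : reach F = F) (hF : F ≠ univ) :
    ∃ m : P, m ∉ F ∧ (∀ y, y ∉ F → ¬ y < m) ∧ ∀ x, x ∈ next F ↔ x = m ∨ x ∈ F := by
  classical
  have h2 := exists_min_compl hF
  refine ⟨h2.choose, h2.choose_spec.1, h2.choose_spec.2, fun x => ?_⟩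
  unfold next
  rw [if_pos h, dif_pos h2, mem_insert]

theorem ssubset_next {F : Finset P} (hF : F ≠ univ) : F ⊂ next F := by
  by_cases h : reach F = F
  · obtain ⟨m, hm, -, hmem⟩ := next_of_eq h hF
    rw [ssubset_iff_of_subset ((subset_reach F).trans (reach_subset_next F))]
    exact ⟨m, (hmem m).2 (Or.inl rfl), hm⟩
  · rw [next_of_ne h]
    exact (subset_reach F).ssubset_of_ne (Ne.symm h)

theorem next_lower {F : Finset P} (hF : ∀ x y, x ≤ y → y ∈ F → x ∈ F) :
    ∀ x y, x ≤ y → y ∈ next F → x ∈ next F := by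
  intro x y hxy hy
  by_cases h : reach F = F
  · by_cases hu : F = univ
    · exact reach_subset_next F (subset_reach F (by rw [hu]; exact mem_univ _))
    · obtain ⟨m, hm, hmin, hmem⟩ := next_of_eq h hu
      rw [hmem] at hy ⊢
      rcases hy with hy | hy
      · subst hy
        by_cases hx : x ∈ F
        · exact Or.inr hx
        · left
          by_contra hne
          exact hmin x hx (lt_of_le_of_ne hxy hne)
      · exact Or.inr (hF x y hxy hy)
  · rw [next_of_ne h] at hy ⊢
    rw [mem_reach] at hy ⊢
    obtain ⟨z, hz, hzy⟩ := hy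
    exact ⟨z, hz, fun hzx => hzy (lt_of_lt_of_le hzx hxy)⟩

theorem Fil_lower (i : ℕ) : ∀ x y : P, x ≤ y → y ∈ Fil i → x ∈ Fil i := by
  induction i with
  | zero => intro x y _ hy; simp [Fil] at hy
  | succ _ ih => exact next_lower ih

theorem Fil_mono : Monotone (Fil (P := P)) :=
  monotone_nat_of_le_succ fun i => (subset_reach _).trans (reach_subset_next _)

theorem Fil_card (i : ℕ) : i ≤ (Fil i : Finset P).card ∨ (Fil i : Finset P) = univ := by
  induction i with
  | zero => left; exact Nat.zero_le _
  | succ i ih =>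
    by_cases hu : (Fil i : Finset P) = univ
    · right
      rw [eq_univ_iff_forall]
      intro x
      exact Fil_mono (Nat.le_succ i) (by rw [hu]; exact mem_univ x)
    · left
      rcases ih with ih | ih
      · have := card_lt_card (ssubset_next hu)
        change i + 1 ≤ (next (Fil i)).card
        omega
      · exact absurd ih hu

theorem exists_mem_Fil (x : P) : ∃ i, x ∈ Fil (i + 1) := by
  refine ⟨Fintype.card P, ?_⟩
  rcases Fil_card (P := P) (Fintype.card P + 1) with h | h
  · have := card_le_univ (Fil (Fintype.card P + 1) : Finset P)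
    omega
  · rw [h]; exact mem_univ x

open Classical in
/-- The number of the block of `x`. -/
noncomputable def blk (x : P) : ℕ := Nat.find (exists_mem_Fil x)

theorem mem_Fil_blk (x : P) : x ∈ Fil (blk x + 1) := by
  classical
  exact Nat.find_spec (exists_mem_Fil x)

theorem not_mem_Fil_blk (x : P) : x ∉ Fil (blk x) := by
  classical
  intro h
  rcases hb : blk x with _ | k
  · rw [hb] at h; simp [Fil] at h
  · rw [hb] at h
    have : k < blk x := by omega
    exact Nat.find_min (exists_mem_Fil x) this h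

theorem mem_Fil_iff (x : P) (i : ℕ) : x ∈ Fil i ↔ blk x < i := by
  constructor
  · intro h
    by_contra hcon
    exact not_mem_Fil_blk x (Fil_mono (not_lt.1 hcon) h)
  · intro h
    exact Fil_mono h (mem_Fil_blk x)

theorem blk_mono {x y : P} (h : x ≤ y) : blk x ≤ blk y := by
  have := Fil_lower (blk y + 1) x y h (mem_Fil_blk y)
  rw [mem_Fil_iff] at this
  omega

theorem lt_of_blk {x y : P} (h : blk x + 2 ≤ blk y) : x < y := by
  by_contra hcon
  have h1 : y ∈ reach (Fil (blk x + 1)) := mem_reach.2 ⟨x, mem_Fil_blk x, hcon⟩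
  have h2 : y ∈ Fil (blk x + 1 + 1) := reach_subset_next _ h1
  rw [mem_Fil_iff] at h2
  omega

/-- The block `i` starts a new component. -/
def cut (P : Type*) [PartialOrder P] [Fintype P] (i : ℕ) : Prop :=
  reach (Fil i : Finset P) = Fil i

theorem cut_zero : cut P 0 := by
  unfold cut
  ext y
  simp [mem_reach, Fil]

theorem cut_eq {x y : P} (hc : cut P (blk x)) (h : blk x = blk y) : x = y := by
  have hx := mem_Fil_blk x
  have hx' := not_mem_Fil_blk x
  have hy := mem_Fil_blk y
  have hy' := not_mem_Fil_blk y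
  rw [← h] at hy hy'
  have hu : (Fil (blk x) : Finset P) ≠ univ := fun hu => hx' (by rw [hu]; exact mem_univ x)
  obtain ⟨m, -, -, hmem⟩ := next_of_eq hc hu
  have h1 := (hmem x).1 hx
  have h2 := (hmem y).1 hy
  rcases h1 with h1 | h1
  · rcases h2 with h2 | h2
    · rw [h1, h2]
    · exact absurd h2 hy'
  · exact absurd h1 hx'

theorem cut_lt {x y : P} (hc : cut P (blk y)) (h : blk x < blk y) : x < y := by
  by_contra hcon
  have h1 : y ∈ reach (Fil (blk y)) := mem_reach.2 ⟨x, (mem_Fil_iff x _).2 h, hcon⟩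
  rw [hc] at h1
  exact not_mem_Fil_blk y h1

/-- The element `x` is maximal in the filtration at its block. -/
def Top (x : P) : Prop := ∀ z : P, blk z ≤ blk x → ¬ x < z

theorem exists_top_ge (x : P) (i : ℕ) (hi : blk x ≤ i) :
    ∃ z : P, x ≤ z ∧ blk z ≤ i ∧ ∀ w : P, blk w ≤ i → ¬ z < w := by
  classical
  obtain ⟨z, hxz, hz⟩ := (univ.filter (fun z : P => blk z ≤ i)).exists_le_maximal
    (show x ∈ _ by simpa using hi)
  have hz1 : blk z ≤ i := by simpa using hz.1
  refine ⟨z, hxz, hz1, fun w hw hlt => ?_⟩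
  have := hz.2 (show w ∈ univ.filter (fun z : P => blk z ≤ i) by simpa using hw) hlt.le
  exact absurd hlt (not_lt_of_ge this)

theorem exists_prev {y : P} (i : ℕ) (hy : blk y = i + 1) :
    ∃ x : P, blk x = i ∧ Top x ∧ (¬ cut P (i + 1) → ¬ x ≤ y ∧ ¬ y ≤ x) := by
  by_cases hc : cut P (i + 1)
  · -- the block `i` is nonempty
    have hne : ∃ x : P, blk x = i := by
      have hu : (Fil i : Finset P) ≠ univ := by
        intro hu
        have := (mem_Fil_iff y i).1 (by rw [hu]; exact mem_univ y)
        omega
      obtain ⟨x, hx1, hx2⟩ := (ssubset_iff_of_subset (ssubset_next hu).subset).1 (ssubset_next hu)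
      have h1 : x ∈ Fil (i + 1) := hx1
      rw [mem_Fil_iff] at h1 hx2
      exact ⟨x, by omega⟩
    obtain ⟨x, hx⟩ := hne
    obtain ⟨z, hxz, hz1, hz2⟩ := exists_top_ge x i hx.le
    have hz : blk z = i := le_antisymm hz1 (hx ▸ blk_mono hxz)
    refine ⟨z, hz, ?_, fun h => absurd hc h⟩
    intro w hw
    exact hz2 w (by omega)
  · have hmem : y ∈ reach (Fil (i + 1)) := by
      have h1 : y ∈ Fil (i + 1 + 1) := by rw [mem_Fil_iff]; omega
      change y ∈ next (Fil (i + 1)) at h1
      rwa [next_of_ne hc] at h1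
    obtain ⟨x, hx, hxy⟩ := mem_reach.1 hmem
    rw [mem_Fil_iff] at hx
    obtain ⟨z, hxz, hz1, hz2⟩ := exists_top_ge x i (by omega)
    have h1 : ¬ z ≤ y := by
      intro h
      rcases lt_or_eq_of_le h with h | h
      · exact hxy (lt_of_le_of_lt hxz h)
      · rw [h] at hz1; omega
    have h2 : ¬ y ≤ z := by
      intro h
      have := blk_mono h
      omega
    have hz : blk z = i := by
      by_contra hne
      have : blk z + 2 ≤ blk y := by omega
      exact h1 (lt_of_blk this).le
    refine ⟨z, hz, ?_, fun _ => ⟨h1, h2⟩⟩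
    intro w hw
    exact hz2 w (by omega)

theorem exists_hubs_aux (i : ℕ) (y : P) (hy : blk y = i) (hty : Top y) :
    ∃ v : ℕ → P, v i = y ∧ ∀ j ≤ i, blk (v j) = j ∧ Top (v j) ∧
      (∀ k, k + 1 = j → ¬ cut P j → ¬ v k ≤ v j ∧ ¬ v j ≤ v k) := by
  induction i generalizing y with
  | zero =>
    refine ⟨fun _ => y, rfl, fun j hj => ?_⟩
    have : j = 0 := by omega
    subst this
    exact ⟨hy, hty, fun k hk => by omega⟩
  | succ i ih =>
    obtain ⟨x, hx, htx, hxy⟩ := exists_prev i hy
    obtain ⟨v, hv, hv'⟩ := ih x hx htx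
    refine ⟨fun j => if j ≤ i then v j else y, by simp, fun j hj => ?_⟩
    by_cases hji : j ≤ i
    · obtain ⟨h1, h2, h3⟩ := hv' j hji
      simp only [hji, if_true]
      refine ⟨h1, h2, fun k hk hc => ?_⟩
      have : k ≤ i := by omega
      simp only [this, if_true]
      exact h3 k hk hc
    · have hj' : j = i + 1 := by omega
      subst hj'
      simp only [hji, if_false]
      refine ⟨hy, hty, fun k hk hc => ?_⟩
      have : k = i := by omega
      subst this
      simp only [le_refl, if_true, hv]
      exact hxy hc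

/-- Blocks and hubs. -/
theorem exists_hubs [Nonempty P] :
    ∃ v : ℕ → P, ∀ x : P, blk (v (blk x)) = blk x ∧ Top (v (blk x)) ∧
      (∀ k, k + 1 = blk x → ¬ cut P (blk x) → ¬ v k ≤ v (blk x) ∧ ¬ v (blk x) ≤ v k) := by
  classical
  obtain ⟨y, -, hy⟩ := exists_max_image (univ : Finset P) blk univ_nonempty
  obtain ⟨z, hyz, hz1, hz2⟩ := exists_top_ge y (blk y) le_rfl
  have hz : blk z = blk y := le_antisymm hz1 (blk_mono hyz)
  obtain ⟨v, -, hv⟩ := exists_hubs_aux (blk y) z hz (fun w hw => hz2 w (by omega))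
  exact ⟨v, fun x => hv (blk x) (hy x (mem_univ x))⟩

end Pool.Agent.H59.Fib
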