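import Pool.Agent.H59.Fib.Block

/-!
# Five sets without nontrivial maximal antichains which cover every element exactly twice
-/

namespace Pool.Agent.H59.Fib

open Finset

variable {P : Type*} [PartialOrder P] [Fintype P]

/-- Every antichain with at least two elements inside `U` can be extended. -/
def IsCo (U : Set P) : Prop :=
  ∀ A : Set P, A ⊆ U → A.Nontrivial → IsAntichain (· ≤ ·) A → ∃ z, ∀ a ∈ A, ¬ a ≤ z ∧ ¬ z ≤ a

/-- `x` is incomparable to the hub of its block. -/
def RInc (v : ℕ → P) (x : P) : Prop := ¬ x ≤ v (blk x)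

/-- `x` is incomparable to the hub of the previous block (or there is no such hub). -/
def LInc (v : ℕ → P) (x : P) : Prop := cut P (blk x) ∨ ¬ v (blk x - 1) < x

def Sset (v : ℕ → P) (r : ℕ) : Set P :=
  {x | (blk x % 3 = r ∧ RInc v x) ∨ ((blk x + 2) % 3 = r ∧ LInc v x)}

def Tset (v : ℕ → P) (e : ℕ) : Set P :=
  {x | (blk x % 2 = e ∧ ¬ LInc v x) ∨ ((blk x + 1) % 2 = e ∧ ¬ RInc v x)}

section

variable {v : ℕ → P}
  (hv : ∀ x : P, blk (v (blk x)) = blk x ∧ Top (v (blk x)) ∧
      (∀ k, k + 1 = blk x → ¬ cut P (blk x) → ¬ v k ≤ v (blk x) ∧ ¬ v (blk x) ≤ v k))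

theorem exists_blk_of_lt {x : P} {i : ℕ} (h : i ≤ blk x) : ∃ y : P, blk y = i := by
  obtain ⟨k, hk⟩ := Nat.exists_eq_add_of_le h
  induction k generalizing i with
  | zero => exact ⟨x, by omega⟩
  | succ k ih =>
    obtain ⟨y, hy⟩ := ih (i := i + 1) (by omega) (by omega)
    obtain ⟨z, hz, -⟩ := exists_prev i hy
    exact ⟨z, hz⟩

include hv

theorem RInc.inc {x : P} (h : RInc v x) : ¬ x ≤ v (blk x) ∧ ¬ v (blk x) ≤ x := by
  refine ⟨h, fun hle => ?_⟩
  rcases lt_or_eq_of_le hle with hlt | heq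
  · exact (hv x).2.1 x (by rw [(hv x).1]) hlt
  · exact h heq.ge

theorem blk_hub {x : P} {i : ℕ} (h : i ≤ blk x) : blk (v i) = i := by
  obtain ⟨y, hy⟩ := exists_blk_of_lt h
  have := (hv y).1
  rwa [hy] at this

/-- An element with `LInc` in a block which does not start a component. -/
theorem LInc.inc {x : P} {i : ℕ} (hx : blk x = i + 1) (hc : ¬ cut P (blk x)) (h : LInc v x) :
    ¬ x ≤ v i ∧ ¬ v i ≤ x := by
  have hb : blk (v i) = i := blk_hub hv (show i ≤ blk x by omega)
  have h1 : ¬ v i < x := by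
    rcases h with h | h
    · exact absurd h hc
    · rwa [hx, Nat.add_sub_cancel] at h
  refine ⟨fun hle => ?_, fun hle => ?_⟩
  · have := blk_mono hle; omega
  · rcases lt_or_eq_of_le hle with hlt | heq
    · exact h1 hlt
    · rw [heq] at hb; omega

/-- An element which is below its hub satisfies `LInc`. -/
theorem LInc_of_not_RInc {x : P} (h : ¬ RInc v x) : LInc v x := by
  unfold RInc at h
  push Not at h
  by_cases hc : cut P (blk x)
  · exact Or.inl hc
  · right
    intro hlt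
    rcases hb : blk x with _ | i
    · rw [hb] at hc; exact hc cut_zero
    · rw [hb, Nat.add_sub_cancel] at hlt
      have := ((hv x).2.2 i hb.symm hc).1
      exact this (hlt.le.trans h)

theorem RInc_of_not_LInc {x : P} (h : ¬ LInc v x) : RInc v x := by
  by_contra hcon
  exact h (LInc_of_not_RInc hv hcon)

end

/-- An antichain lives in two consecutive blocks. -/
theorem antichain_blocks {A : Set P} (hA : IsAntichain (· ≤ ·) A) (hne : A.Nontrivial) :
    ∃ i, (∃ a ∈ A, blk a = i) ∧ (∀ a ∈ A, blk a = i ∨ blk a = i + 1) ∧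
      ((∃ a ∈ A, blk a = i + 1) → ¬ cut P (i + 1)) ∧ (cut P i → ∃ a ∈ A, blk a = i + 1) := by
  classical
  have hne' : ∃ i, ∃ a ∈ A, blk a = i := by
    obtain ⟨a, ha⟩ := hne.nonempty
    exact ⟨_, a, ha, rfl⟩
  obtain ⟨a, ha, hai⟩ := Nat.find_spec hne'
  set i := Nat.find hne' with hi
  have hmin : ∀ b ∈ A, i ≤ blk b := by
    intro b hb
    by_contra hcon
    exact Nat.find_min hne' (not_le.1 hcon) ⟨b, hb, rfl⟩
  have h2 : ∀ b ∈ A, blk b = i ∨ blk b = i + 1 := by
    intro b hb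
    have h1 := hmin b hb
    by_contra hcon
    have h3 : blk a + 2 ≤ blk b := by omega
    have h4 := lt_of_blk h3
    exact hA ha hb h4.ne h4.le
  refine ⟨i, ⟨a, ha, hai⟩, h2, ?_, ?_⟩
  · rintro ⟨b, hb, hbi⟩ hc
    have h4 : a < b := cut_lt (by rwa [hbi]) (by omega)
    exact hA ha hb h4.ne h4.le
  · intro hc
    obtain ⟨x, hx, y, hy, hxy⟩ := hne
    by_contra hcon
    push Not at hcon
    have hx' := (h2 x hx).resolve_right (hcon x hx)
    have hy' := (h2 y hy).resolve_right (hcon y hy)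
    exact hxy (cut_eq (by rwa [hx']) (by omega))

section

variable {v : ℕ → P}
  (hv : ∀ x : P, blk (v (blk x)) = blk x ∧ Top (v (blk x)) ∧
      (∀ k, k + 1 = blk x → ¬ cut P (blk x) → ¬ v k ≤ v (blk x) ∧ ¬ v (blk x) ≤ v k))

include hv

theorem isCo_Sset (r : ℕ) : IsCo (Sset v r) := by
  intro A hAU hne hA
  obtain ⟨i, ⟨a, ha, hai⟩, h2, h3, h4⟩ := antichain_blocks hA hne
  by_cases hi : i % 3 = r
  · -- all elements are incomparable to the hub of block `i`
    refine ⟨v i, fun b hb => ?_⟩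
    rcases h2 b hb with hbi | hbi
    · rcases hAU hb with ⟨-, h⟩ | ⟨h, -⟩
      · have := h.inc hv
        rwa [hbi] at this
      · rw [hbi] at h; omega
    · rcases hAU hb with ⟨h, -⟩ | ⟨-, h⟩
      · rw [hbi] at h; omega
      · exact h.inc hv hbi (by rw [hbi]; exact h3 ⟨b, hb, hbi⟩)
  · -- all elements are in block `i`
    have h5 : (i + 2) % 3 = r := by
      rcases hAU ha with ⟨h, -⟩ | ⟨h, -⟩
      · rw [hai] at h; exact absurd h hi
      · rwa [hai] at h
    have h6 : ∀ b ∈ A, blk b = i := by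
      intro b hb
      rcases h2 b hb with hbi | hbi
      · exact hbi
      · exfalso
        rcases hAU hb with ⟨h, -⟩ | ⟨h, -⟩
        · rw [hbi] at h; omega
        · rw [hbi] at h; omega
    have hc : ¬ cut P i := by
      intro hc
      obtain ⟨b, hb, hbi⟩ := h4 hc
      have := h6 b hb
      omega
    rcases i with _ | i
    · exact absurd cut_zero hc
    · refine ⟨v i, fun b hb => ?_⟩
      have hbi := h6 b hb
      rcases hAU hb with ⟨h, -⟩ | ⟨-, h⟩
      · rw [hbi] at h; exact absurd h hi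
      · exact h.inc hv hbi (by rwa [hbi])

theorem isCo_Tset (e : ℕ) : IsCo (Tset v e) := by
  intro A hAU hne hA
  obtain ⟨i, ⟨a, ha, hai⟩, h2, h3, h4⟩ := antichain_blocks hA hne
  by_cases hi : i % 2 = e
  · refine ⟨v i, fun b hb => ?_⟩
    rcases h2 b hb with hbi | hbi
    · rcases hAU hb with ⟨-, h⟩ | ⟨h, -⟩
      · have := (RInc_of_not_LInc hv h).inc hv
        rwa [hbi] at this
      · rw [hbi] at h; omega
    · rcases hAU hb with ⟨h, -⟩ | ⟨-, h⟩
      · rw [hbi] at h; omega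
      · exact (LInc_of_not_RInc hv h).inc hv hbi (by rw [hbi]; exact h3 ⟨b, hb, hbi⟩)
  · have h5 : (i + 1) % 2 = e := by
      rcases hAU ha with ⟨h, -⟩ | ⟨h, -⟩
      · rw [hai] at h; exact absurd h hi
      · rwa [hai] at h
    have hle : ∀ b ∈ A, blk b = i → b ≤ v i := by
      intro b hb hbi
      rcases hAU hb with ⟨h, -⟩ | ⟨-, h⟩
      · rw [hbi] at h; exact absurd h hi
      · unfold RInc at h; push Not at h; rwa [hbi] at h
    have h6 : ∀ b ∈ A, blk b = i := by
      intro b hb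
      rcases h2 b hb with hbi | hbi
      · exact hbi
      · exfalso
        rcases hAU hb with ⟨-, h⟩ | ⟨h, -⟩
        · have h7 : v i < b := by
            unfold LInc at h
            push Not at h
            have := h.2
            rwa [hbi, Nat.add_sub_cancel] at this
          have h8 : a < b := lt_of_le_of_lt (hle a ha hai) h7
          exact hA ha hb h8.ne h8.le
        · rw [hbi] at h; omega
    have hc : ¬ cut P i := by
      intro hc
      obtain ⟨b, hb, hbi⟩ := h4 hc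
      have := h6 b hb
      omega
    rcases i with _ | i
    · exact absurd cut_zero hc
    · refine ⟨v i, fun b hb => ?_⟩
      have hbi := h6 b hb
      rcases hAU hb with ⟨h, -⟩ | ⟨-, h⟩
      · rw [hbi] at h; exact absurd h hi
      · exact (LInc_of_not_RInc hv h).inc hv hbi (by rwa [hbi])

end

/-- Five cofibres which cover every element exactly twice. -/
theorem exists_five [Nonempty P] : ∃ U : Fin 5 → Set P, (∀ j, IsCo (U j)) ∧
    ∀ x, ∃ j k : Fin 5, j ≠ k ∧ x ∈ U j ∧ x ∈ U k := by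
  classical
  obtain ⟨v, hv⟩ := exists_hubs (P := P)
  refine ⟨![Sset v 0, Sset v 1, Sset v 2, Tset v 0, Tset v 1], ?_, ?_⟩
  · intro j
    fin_cases j
    · exact isCo_Sset hv 0
    · exact isCo_Sset hv 1
    · exact isCo_Sset hv 2
    · exact isCo_Tset hv 0
    · exact isCo_Tset hv 1
  · intro x
    have hR : (RInc v x ∧ x ∈ Sset v (blk x % 3)) ∨ (¬ RInc v x ∧ x ∈ Tset v ((blk x + 1) % 2)) := by
      by_cases h : RInc v x
      · exact Or.inl ⟨h, Or.inl ⟨rfl, h⟩⟩
      · exact Or.inr ⟨h, Or.inr ⟨rfl, h⟩⟩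
    have hL : (LInc v x ∧ x ∈ Sset v ((blk x + 2) % 3)) ∨ (¬ LInc v x ∧ x ∈ Tset v (blk x % 2)) := by
      by_cases h : LInc v x
      · exact Or.inl ⟨h, Or.inr ⟨rfl, h⟩⟩
      · exact Or.inr ⟨h, Or.inl ⟨rfl, h⟩⟩
    have hS : ∀ r : ℕ, r < 3 → x ∈ Sset v r → ∃ j : Fin 5, (j : ℕ) = r ∧
        x ∈ (![Sset v 0, Sset v 1, Sset v 2, Tset v 0, Tset v 1] : Fin 5 → Set P) j := by
      intro r hr hx
      interval_cases r
      · exact ⟨0, rfl, hx⟩
      · exact ⟨1, rfl, hx⟩
      · exact ⟨2, rfl, hx⟩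
    have hT : ∀ e : ℕ, e < 2 → x ∈ Tset v e → ∃ j : Fin 5, (j : ℕ) = 3 + e ∧
        x ∈ (![Sset v 0, Sset v 1, Sset v 2, Tset v 0, Tset v 1] : Fin 5 → Set P) j := by
      intro e he hx
      interval_cases e
      · exact ⟨3, rfl, hx⟩
      · exact ⟨4, rfl, hx⟩
    rcases hR with ⟨-, hR⟩ | ⟨-, hR⟩
    · obtain ⟨j, hj, hxj⟩ := hS _ (Nat.mod_lt _ (by norm_num)) hR
      rcases hL with ⟨-, hL⟩ | ⟨-, hL⟩
      · obtain ⟨k, hk, hxk⟩ := hS _ (Nat.mod_lt _ (by norm_num)) hL
        exact ⟨j, k, fun h => by rw [h] at hj; omega, hxj, hxk⟩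
      · obtain ⟨k, hk, hxk⟩ := hT _ (Nat.mod_lt _ (by norm_num)) hL
        exact ⟨j, k, fun h => by rw [h] at hj; omega, hxj, hxk⟩
    · obtain ⟨j, hj, hxj⟩ := hT _ (Nat.mod_lt _ (by norm_num)) hR
      rcases hL with ⟨-, hL⟩ | ⟨-, hL⟩
      · obtain ⟨k, hk, hxk⟩ := hS _ (Nat.mod_lt _ (by norm_num)) hL
        exact ⟨j, k, fun h => by rw [h] at hj; omega, hxj, hxk⟩
      · obtain ⟨k, hk, hxk⟩ := hT _ (Nat.mod_lt _ (by norm_num)) hL
        exact ⟨j, k, fun h => by rw [h] at hj; omega, hxj, hxk⟩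

theorem exists_large_co [Nonempty P] :
    ∃ U : Finset P, IsCo (U : Set P) ∧ 2 * Fintype.card P ≤ 5 * U.card := by
  classical
  obtain ⟨U, hU, hcov⟩ := exists_five (P := P)
  have h1 : 2 * Fintype.card P ≤ ∑ j : Fin 5, (univ.filter (fun x => x ∈ U j)).card := by
    simp_rw [card_filter]
    rw [sum_comm]
    have h2 : ∀ x : P, 2 ≤ ∑ j : Fin 5, (if x ∈ U j then 1 else 0) := by
      intro x
      obtain ⟨j, k, hjk, hj, hk⟩ := hcov x
      calc 2 = ∑ l ∈ ({j, k} : Finset (Fin 5)), (if x ∈ U l then 1 else 0) := by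
            rw [sum_pair hjk, if_pos hj, if_pos hk]
        _ ≤ _ := sum_le_sum_of_subset (subset_univ _)
    calc 2 * Fintype.card P = ∑ _x : P, 2 := by simp [mul_comm]
      _ ≤ _ := sum_le_sum fun x _ => h2 x
  obtain ⟨j, -, hj⟩ := exists_le_of_sum_le (s := (univ : Finset (Fin 5)))
    (f := fun _ => 2 * Fintype.card P)
    (g := fun j => 5 * (univ.filter (fun x => x ∈ U j)).card) univ_nonempty (by
      have h3 : ∑ j : Fin 5, 5 * (univ.filter (fun x => x ∈ U j)).card
          = 5 * ∑ j : Fin 5, (univ.filter (fun x => x ∈ U j)).card := (mul_sum _ _ _).symm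
      rw [h3]
      simp only [sum_const, card_univ, Fintype.card_fin, smul_eq_mul]
      omega)
  refine ⟨univ.filter (fun x => x ∈ U j), ?_, hj⟩
  have : ((univ.filter (fun x => x ∈ U j) : Finset P) : Set P) = U j := by
    ext x; simp
  rw [this]
  exact hU j

end Pool.Agent.H59.Fib
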